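import Pool.Agent.N64.AF.Defs
import Pool.Agent.Y112.SR.Lin

/-!
# P1: tensor products, duals and dimensions
-/

set_option autoImplicit false

open CategoryTheory Limits MonoidalCategory Module
open Pool.Agent.Y112.SR Pool.Agent.Y112.KD
open Pool.Agent.Y116.MT (tr)

namespace Pool.Agent.N64.AF

universe v u w t

variable {C : Type u} [Category.{v} C] [Preadditive C] [MonoidalCategory C]
  [MonoidalPreadditive C] [SymmetricCategory C] [RightRigidCategory C]
  {Λ : Type t} [Field Λ] [CharZero Λ] [Linear Λ C] [MonoidalLinear Λ C]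
  {K : Type w} [Field K] [Algebra Λ K] {R : SuperRealisation C K}

/-- P1 -/
theorem cplus_unit (R : SuperRealisation C K) : R.CPlus (𝟙_ C) := by
  refine ⟨𝟙 _, ?_⟩
  rw [R.par_unit, CategoryTheory.Functor.map_id, two_smul]

namespace P1aux

/-- the sign conjecture in terms of the parity -/
theorem cplus_of (hR : IsReal Λ R) {Y : C} (w : Y ⟶ Y) (hw : R.H.map w = R.par Y) :
    R.CPlus Y := by
  have h2 : (2 : K) * algebraMap Λ K (2⁻¹ : Λ) = 1 := by
    rw [← map_ofNat (algebraMap Λ K) 2, ← map_mul, mul_inv_cancel₀ (two_ne_zero), map_one]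
  refine ⟨(2⁻¹ : Λ) • (𝟙 Y + w), ?_⟩
  rw [hR.lin, Functor.map_add, CategoryTheory.Functor.map_id, hw, smul_smul, h2, one_smul]

theorem of_cplus {Y : C} (h : R.CPlus Y) : ∃ w : Y ⟶ Y, R.H.map w = R.par Y := by
  obtain ⟨f, hf⟩ := h
  refine ⟨f + f - 𝟙 Y, ?_⟩
  rw [Functor.map_sub, Functor.map_add, CategoryTheory.Functor.map_id, ← two_smul K, hf]
  abel

end P1aux

open P1aux Functor.LaxMonoidal Functor.OplaxMonoidal

/-- P2 -/
theorem cplus_tensor (hR : IsReal Λ R) {Y Z : C} (hY : R.CPlus Y) (hZ : R.CPlus Z) :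
    R.CPlus (Y ⊗ Z) := by
  obtain ⟨wY, hwY⟩ := of_cplus hY
  obtain ⟨wZ, hwZ⟩ := of_cplus hZ
  refine cplus_of hR (wY ⊗ₘ wZ) ?_
  have h1 := μ_natural (F := R.H) wY wZ
  have h2 : μ R.H Y Z ≫ R.H.map (wY ⊗ₘ wZ) = μ R.H Y Z ≫ R.par (Y ⊗ Z) := by
    rw [R.par_tensor, ← hwY, ← hwZ]
    exact h1.symm
  have h3 := congrArg (fun z => δ R.H Y Z ≫ z) h2
  simpa using h3

/-! ### the pairing of `H Yᘁ` and `H Y` -/

namespace P1aux

/-- the pairing of `H Yᘁ` and `H Y` -/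
noncomputable def pg (R : SuperRealisation C K) (Y : C) :
    R.H.obj Y →ₗ[K] Module.Dual K (R.H.obj Yᘁ) :=
  LinearMap.flip (TensorProduct.curry (evb R Y).hom)

theorem pg_apply (R : SuperRealisation C K) (Y : C) (v : R.H.obj Y) (x : R.H.obj Yᘁ) :
    pg R Y v x = (evb R Y).hom (x ⊗ₜ[K] v) := rfl

theorem pg_inj (R : SuperRealisation C K) (Y : C) : Function.Injective (pg R Y) := by
  rw [← LinearMap.ker_eq_bot, LinearMap.ker_eq_bot']
  intro v hv
  have hz := zigzag R Y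
  have h1 : ∀ z : (R.H.obj Y ⊗ R.H.obj Yᘁ : ModuleCat.{w} K),
      ((α_ (R.H.obj Y) (R.H.obj Yᘁ) (R.H.obj Y)).hom ≫ R.H.obj Y ◁ evb R Y).hom (z ⊗ₜ[K] v) = 0 := by
    intro z
    induction z using TensorProduct.induction_on with
    | zero =>
      rw [TensorProduct.zero_tmul, map_zero]
    | tmul a b =>
      have h2 : (evb R Y).hom (b ⊗ₜ[K] v) = 0 := by
        rw [← pg_apply, hv]
        rfl
      change a ⊗ₜ[K] ((evb R Y).hom (b ⊗ₜ[K] v)) = 0
      rw [h2, TensorProduct.tmul_zero]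
    | add a b ha hb =>
      rw [TensorProduct.add_tmul, map_add, ha, hb, add_zero]
  have h2 := congrArg (fun f => f.hom ((1 : K) ⊗ₜ[K] v)) hz
  have h3 : (coe R Y ▷ R.H.obj Y ≫ (α_ _ _ _).hom ≫ R.H.obj Y ◁ evb R Y).hom
      ((1 : K) ⊗ₜ[K] v) = 0 := h1 _
  rw [h3] at h2
  have h4 : ((λ_ (R.H.obj Y)).hom ≫ (ρ_ (R.H.obj Y)).inv).hom ((1 : K) ⊗ₜ[K] v) =
      v ⊗ₜ[K] (1 : K) := by
    change (1 : K) • v ⊗ₜ[K] (1 : K) = _
    rw [one_smul]
  rw [h4] at h2
  have h5 := congrArg (fun x => (TensorProduct.rid K (R.H.obj Y)) x) h2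
  simpa using h5.symm

theorem bt_le (R : SuperRealisation C K) (Y : C) : bt R Y ≤ bt R (Yᘁ) := by
  have h := LinearMap.finrank_le_finrank_of_injective (pg_inj R Y)
  rwa [Subspace.dual_finrank_eq] at h

end P1aux

/-- P5 -/
theorem bt_tensor (R : SuperRealisation C K) (Y Z : C) : bt R (Y ⊗ Z) = bt R Y * bt R Z := by
  have h := (Functor.Monoidal.μIso R.H Y Z).toLinearEquiv.finrank_eq
  unfold bt
  rw [← h]
  exact Module.finrank_tensorProduct

/-- P6 -/
theorem bt_unit (R : SuperRealisation C K) : bt R (𝟙_ C) = 1 := by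
  have h := (Functor.Monoidal.εIso R.H).toLinearEquiv.finrank_eq
  unfold bt
  rw [← h]
  exact Module.finrank_self K

/-- P8 -/
theorem bt_dual (R : SuperRealisation C K) (Y : C) : bt R (Yᘁ) = bt R Y := by
  refine le_antisymm ?_ (bt_le R Y)
  have h1 := bt_le R (Yᘁ)
  have e : (Yᘁ)ᘁ ≅ Y :=
    letI : ExactPairing Yᘁ Y := BraidedCategory.exactPairing_swap Y Yᘁ
    rightDualIso (X := Yᘁ) (inferInstance) (inferInstance)
  have h2 := (R.H.mapIso e).toLinearEquiv.finrank_eq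
  unfold bt at h1 ⊢
  rwa [h2] at h1

namespace P1aux

theorem pg_surj (R : SuperRealisation C K) (Y : C) : Function.Surjective (pg R Y) := by
  refine (LinearMap.injective_iff_surjective_of_finrank_eq_finrank ?_).1 (pg_inj R Y)
  rw [Subspace.dual_finrank_eq]
  exact (bt_dual R Y).symm

/-- a morphism is determined by the pairing -/
theorem det_pair (R : SuperRealisation C K) (Y : C) (f g : R.H.obj Yᘁ ⟶ R.H.obj Yᘁ)
    (h : (f ▷ R.H.obj Y) ≫ evb R Y = (g ▷ R.H.obj Y) ≫ evb R Y) : f = g := by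
  ext x
  rw [← sub_eq_zero]
  rw [← Module.forall_dual_apply_eq_zero_iff K]
  intro φ
  obtain ⟨v, rfl⟩ := pg_surj R Y φ
  rw [map_sub, sub_eq_zero, pg_apply, pg_apply]
  exact congrArg (fun k => k.hom (x ⊗ₜ[K] v)) h

end P1aux

/-- P3 -/
theorem cplus_dual (hR : IsReal Λ R) {Y : C} (hY : R.CPlus Y) : R.CPlus (Yᘁ) := by
  obtain ⟨w, hw⟩ := of_cplus hY
  refine cplus_of hR (rightAdjointMate w) (det_pair R Y _ _ ?_)
  have h1 : (R.H.map (rightAdjointMate w) ▷ R.H.obj Y) ≫ evb R Y =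
      (R.H.obj Yᘁ ◁ R.par Y) ≫ evb R Y := by
    rw [← hw]
    unfold evb
    rw [μ_natural_left_assoc, μ_natural_right_assoc, ← Functor.map_comp_assoc,
      ← Functor.map_comp_assoc, rightAdjointMate_comp_evaluation]
  have h2 : R.par Yᘁ ▷ R.H.obj Y ≫ (R.par Yᘁ ⊗ₘ R.par Y) = R.H.obj Yᘁ ◁ R.par Y := by
    rw [MonoidalCategory.tensorHom_def, ← Category.assoc, ← comp_whiskerRight, R.par_sq,
      id_whiskerRight, Category.id_comp]
  rw [h1, ← h2, Category.assoc, evb_even]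

/-- P4 -/
theorem cplus_tp (hR : IsReal Λ R) {T : C} (hT : R.CPlus T) (n : ℕ) : R.CPlus (tp T n) := by
  induction n with
  | zero => exact cplus_unit R
  | succ n ih => exact cplus_tensor hR ih hT

/-- P7 -/
theorem bt_tp (R : SuperRealisation C K) (T : C) (n : ℕ) : bt R (tp T n) = bt R T ^ n := by
  induction n with
  | zero => exact bt_unit R
  | succ n ih =>
    rw [pow_succ, ← ih]
    exact bt_tensor R _ _

end Pool.Agent.N64.AF
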